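import Pool.Agent.Helper96.GPL.St

/-!
# GP LEN (T4): tree networks with all degrees outside `A` at least three
-/

set_option autoImplicit false

namespace Pool.Agent.Helper81.GPL

open Pool.Agent.Helper96.GPL Pool.Agent.Helper18.GP Relation Classical

theorem pDeg (h1 : lListTree) (h3 : lRed) : lDeg := by
  intro X S d A E hd hA hAS hE hC
  have hex : ∃ k : ℕ, ∃ (H : SimpleGraph (Fin k)) (x : Fin k → X),
      TN S (A : Set X) H x ∧ tlen d H x ≤ nlen d E := by
    obtain ⟨k, H, x, hT, _, hl⟩ := h1 X S d A E hd hA hAS hE hC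
    exact ⟨k, H, x, hT, hl⟩
  obtain ⟨H, x, hT, hl⟩ := Nat.find_spec hex
  have hmin := fun (m : ℕ) (hm : m < Nat.find hex) => Nat.find_min hex hm
  revert H x
  generalize Nat.find hex = k at *
  intro H x hT hl
  refine ⟨k, H, x, hT, ?_, hl⟩
  intro i hi
  by_contra hdeg
  obtain ⟨E1, hC1, hl1, hE1⟩ := h3 X S d A k H x hd hA hT i hi (by omega)
  have hN1 : Nd S E1 := by
    intro e he
    obtain ⟨⟨j, _, hj⟩, ⟨j', _, hj'⟩⟩ := hE1 e he
    rw [hj, hj']
    exact ⟨hT.mem _, hT.mem _⟩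
  obtain ⟨k', H', x', hT', hn', hl'⟩ := h1 X S d A E1 hd hA hAS hN1 hC1
  have hsel : ∀ i' : Fin k', ∃ j : Fin k, j ≠ i ∧ x j = x' i' := by
    intro i'
    rcases hn' i' with h | ⟨e, he, h | h⟩
    · obtain ⟨j, hj⟩ := hT.cov (x' i') h
      refine ⟨j, ?_, hj⟩
      rintro rfl
      exact hi (by rw [hj]; exact h)
    · obtain ⟨⟨j, hji, hj⟩, _⟩ := hE1 e he
      exact ⟨j, hji, by rw [h, hj]⟩
    · obtain ⟨_, ⟨j, hji, hj⟩⟩ := hE1 e he
      exact ⟨j, hji, by rw [h, hj]⟩
  choose f hf1 hf2 using hsel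
  have hinj : Function.Injective (fun i' : Fin k' => (⟨f i', hf1 i'⟩ : {j : Fin k // j ≠ i})) := by
    intro u v huv
    have h : f u = f v := congrArg Subtype.val huv
    apply hT'.inj
    rw [← hf2 u, ← hf2 v, h]
  have hcard := Fintype.card_le_of_injective _ hinj
  have hk : Fintype.card {j : Fin k // j ≠ i} < k := by
    have := Fintype.card_subtype_lt (p := fun j : Fin k => j ≠ i) (x := i) (by simp)
    simpa using this
  rw [Fintype.card_fin] at hcard
  exact hmin k' (lt_of_le_of_lt hcard hk) ⟨H', x', hT', hl'.trans (hl1.trans hl)⟩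

end Pool.Agent.Helper81.GPL
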